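import Pool.Agent.T6.H9.Q5.Descent

/-!
# The integer solutions of `4 x⁵ + 4 y⁵ + 11 z⁵ = 0`

The integer solutions of `4 x⁵ + 4 y⁵ + 11 z⁵ = 0` are exactly the triples `(t, -t, 0)`. In
particular there is no solution with `x`, `y`, `z` all nonzero.

Proof. After dividing by common factors, `x⁵ + y⁵ = 88 w⁵` with coprime odd `x`, `y`, and modulo
`25` one gets `5 ∣ w`. In `ℤ[ζ₅]` (a principal ideal domain) the element
`(x + ζ y) / (1 - ζ)` is rational modulo `5`, coprime to its conjugates and its norm is `r⁵` or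
`11 r⁵`. The second case is impossible: the element would be `u (2 + ζ') δ⁵` with a unit `u`, and
`u / ū` is a root of unity, while `ζ^b (2 + ζ)` is never congruent to `2 + ζ⁻¹` modulo `5` up to
sign. Hence `11 ∣ x + y`, and Dirichlet's descent in `ℤ[(1 + √5) / 2]` can be started. At each stage
of the descent the same lemma in `ℤ[ζ₅]` (for norms `11 ^ g r⁵` with `5 ∤ g`) shows that the powers of
`11` go where the descent needs them.
-/

set_option autoImplicit false

namespace Pool.Agent.Results.MP_e25fb9_nt.NoSolutions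

/-- The integer solutions of `4 x⁵ + 4 y⁵ + 11 z⁵ = 0` are exactly the triples `(t, -t, 0)`. -/
theorem result (x y z : ℤ) :
    4 * x ^ 5 + 4 * y ^ 5 + 11 * z ^ 5 = 0 ↔ y = -x ∧ z = 0 := by
  constructor
  · intro h
    exact (Pool.Agent.T6.H9.Q5.main h).symm
  · rintro ⟨rfl, rfl⟩
    ring

end Pool.Agent.Results.MP_e25fb9_nt.NoSolutions
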